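import Pool.Agent.W489.Stubs

set_option autoImplicit false

open Metric Set Topology Filter

namespace Pool.Agent.W415.G

open H113G W489

theorem const_of_exp_one {E : Type*} [TopologicalSpace E] {C : Set E} (hC : IsPreconnected C)
    {d : E → ℂ} (hd : ContinuousOn d C) (h1 : ∀ y ∈ C, Complex.exp (d y) = 1) {a b : E}
    (ha : a ∈ C) (hb : b ∈ C) : d a = d b := by
  -- the real function `im / 2 pi` takes integer values
  have hint : ∀ y ∈ C, ∃ n : ℤ, d y = n * (2 * Real.pi * Complex.I) := fun y hy =>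
    Complex.exp_eq_one_iff.1 (h1 y hy)
  have hpi : (Real.pi : ℂ) ≠ 0 := by exact_mod_cast Real.pi_ne_zero
  let r : E → ℝ := fun y => (d y).im / (2 * Real.pi)
  have hr : ContinuousOn r C := (Complex.continuous_im.comp_continuousOn hd).div_const _
  have hri : ∀ y ∈ C, ∃ n : ℤ, r y = n ∧ d y = n * (2 * Real.pi * Complex.I) := by
    intro y hy
    obtain ⟨n, hn⟩ := hint y hy
    refine ⟨n, ?_, hn⟩
    simp only [r]
    rw [hn]
    have : ((n : ℂ) * (2 * Real.pi * Complex.I)).im = n * (2 * Real.pi) := by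
      simp
    rw [this]
    field_simp
  have himg : IsPreconnected (r '' C) := hC.image r hr
  obtain ⟨n, hn, hn'⟩ := hri a ha
  obtain ⟨k, hk, hk'⟩ := hri b hb
  have hnk : n = k := by
    by_contra hne
    have key : ∀ (n k : ℤ), (n : ℝ) ∈ r '' C → (k : ℝ) ∈ r '' C → n < k → False := by
      intro n k h1 h2 h3
      have h4 : (n : ℝ) + 1 / 2 ∈ r '' C := by
        apply himg.ordConnected.out h1 h2
        have h5 : (n : ℝ) + 1 ≤ k := by exact_mod_cast h3
        constructor <;> linarith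
      obtain ⟨y, hy, hy'⟩ := h4
      obtain ⟨j, hj, -⟩ := hri y hy
      rw [hj] at hy'
      have h6 : (2 : ℝ) * j = 2 * n + 1 := by linarith
      have h7 : (2 : ℤ) * j = 2 * n + 1 := by exact_mod_cast h6
      omega
    rcases lt_or_gt_of_ne hne with h | h
    · exact key n k ⟨a, ha, hn⟩ ⟨b, hb, hk⟩ h
    · exact key k n ⟨b, hb, hk⟩ ⟨a, ha, hn⟩ h
  rw [hn', hk', hnk]

theorem T9 (h4b : S_T4b) : S_T9 := by
  intro m Y hY hconn f hf hfne g hg hgne hlog
  obtain ⟨h, hh, hexp⟩ := hlog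
  obtain ⟨-, hloc⟩ := h4b m Y hY hconn f hf hfne
  set A : Set (Fin m → ℂ) := {y | y ∈ Y ∧ f y ≠ 0} with hA
  have hcl : Y ⊆ closure A := by
    intro p hp
    rw [mem_closure_iff_nhds]
    intro N hN
    obtain ⟨V, hV, hpV, hVN, hC⟩ := hloc p hp N hN
    obtain ⟨y, hy1, hy2, hy3⟩ := hC.nonempty
    exact ⟨y, hVN hy2, hy1, hy3⟩
  have hlim : ∀ p ∈ Y, ∃ L : ℂ, Tendsto h (𝓝[A] p) (𝓝 L) := by
    intro p hp
    have hgp : g p ≠ 0 := hgne p hp
    have h1 : {y | y ∈ Y → g y ∈ ball (g p) ‖g p‖} ∈ 𝓝 p := by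
      have h2 := hg p hp (ball_mem_nhds (g p) (norm_pos_iff.2 hgp))
      rw [mem_map, mem_nhdsWithin_iff_eventually] at h2
      filter_upwards [h2] with y hy hyY using hy hyY
    obtain ⟨V, hV, hpV, hVN, hC⟩ := hloc p hp _ h1
    have hball : ∀ y ∈ Y ∩ V, g y / g p ∈ Complex.slitPlane := by
      intro y hy
      have h2 := hVN hy.2 hy.1
      rw [mem_ball, dist_eq_norm] at h2
      apply Complex.ball_one_subset_slitPlane
      rw [mem_ball, dist_eq_norm]
      have h3 : g y / g p - 1 = (g y - g p) / g p := by field_simp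
      rw [h3, norm_div, div_lt_one (norm_pos_iff.2 hgp)]
      exact h2
    let lam : (Fin m → ℂ) → ℂ := fun y => Complex.log (g y / g p) + Complex.log (g p)
    have hlam : ContinuousOn lam (Y ∩ V) := by
      refine ContinuousOn.add (ContinuousOn.clog ?_ hball) continuousOn_const
      exact (hg.mono inter_subset_left).div_const _
    have hlame : ∀ y ∈ Y ∩ V, Complex.exp (lam y) = g y := by
      intro y hy
      have h3 : g y / g p ≠ 0 := div_ne_zero (hgne y hy.1) hgp
      simp only [lam]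
      rw [Complex.exp_add, Complex.exp_log h3, Complex.exp_log hgp]
      field_simp
    obtain ⟨y₀, hy₀⟩ := hC.nonempty
    have hconst : ∀ y, y ∈ Y ∧ y ∈ V ∧ f y ≠ 0 → h y = lam y + (h y₀ - lam y₀) := by
      intro y hy
      have h3 := const_of_exp_one hC.isPreconnected (d := fun y => h y - lam y) 
        ((hh.mono fun y hy => ⟨hy.1, hy.2.2⟩).sub (hlam.mono fun y hy => ⟨hy.1, hy.2.1⟩))
        (fun y hy => by
          rw [Complex.exp_sub, hexp y ⟨hy.1, hy.2.2⟩, hlame y ⟨hy.1, hy.2.1⟩]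
          exact div_self (hgne y hy.1)) hy hy₀
      rw [← h3]; ring
    refine ⟨lam p + (h y₀ - lam y₀), ?_⟩
    have h4 : Tendsto lam (𝓝[A] p) (𝓝 (lam p)) := by
      have h5 : Tendsto lam (𝓝[Y ∩ V] p) (𝓝 (lam p)) := hlam p ⟨hp, hpV⟩
      have h6 : 𝓝[A] p ≤ 𝓝[Y ∩ V] p := by
        rw [nhdsWithin_inter]
        refine le_inf (nhdsWithin_mono _ fun y hy => hy.1) ?_
        exact nhdsWithin_le_nhds.trans (hV.nhdsWithin_eq hpV).ge
      exact h5.mono_left h6
    refine (h4.add_const _).congr' ?_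
    have h7 : ∀ᶠ y in 𝓝[A] p, y ∈ V := nhdsWithin_le_nhds (hV.mem_nhds hpV)
    filter_upwards [h7, self_mem_nhdsWithin] with y hy1 hy2
    exact (hconst y ⟨hy2.1, hy1, hy2.2⟩).symm
  refine ⟨extendFrom A h, continuousOn_extendFrom hcl hlim, ?_⟩
  intro p hp
  obtain ⟨L, hL⟩ := hlim p hp
  rw [extendFrom_eq (hcl hp) hL]
  have : (𝓝[A] p).NeBot := mem_closure_iff_nhdsWithin_neBot.1 (hcl hp)
  have h1 : Tendsto (fun y => Complex.exp (h y)) (𝓝[A] p) (𝓝 (Complex.exp L)) :=
    (Complex.continuous_exp.tendsto L).comp hL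
  have h2 : Tendsto g (𝓝[A] p) (𝓝 (g p)) := 
    (hg p hp).mono_left (nhdsWithin_mono _ fun y hy => hy.1)
  refine tendsto_nhds_unique h1 (h2.congr' ?_)
  filter_upwards [self_mem_nhdsWithin] with y hy
  exact (hexp y hy).symm

end Pool.Agent.W415.G
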